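import Pool.Agent.H112R2.FinalGap

/-! Sets of bounded doubling in `ZMod p` are covered by few progressions with a common difference. -/

set_option autoImplicit false

open Finset
open scoped Pointwise

namespace Pool.Agent.W27.SD

open H112

/-- the constant of the structure theorem -/
noncomputable def CK (K : ℝ) : ℝ := (2 * K) ^ (17000 * (1 + Real.log (1 + Real.log (2 * K))))

theorem CK_ge_one {K : ℝ} (hK : 1 ≤ K) : 1 ≤ CK K := by
  unfold CK
  apply Real.one_le_rpow (by linarith)
  have h1 : 0 ≤ Real.log (2 * K) := Real.log_nonneg (by linarith)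
  have h2 : 0 ≤ Real.log (1 + Real.log (2 * K)) := Real.log_nonneg (by linarith)
  positivity

theorem gap_zmod {p : ℕ} [Fact p.Prime] {K : ℝ} {A : Finset (ZMod p)} (hA : A.Nonempty)
    (hK : ((A + A).card : ℝ) ≤ K * A.card) (hK1 : 1 ≤ K) :
    (p : ℝ) ≤ CK K * A.card ∨
    ∃ (k : ℕ) (v : Fin k → ZMod p) (L : Fin k → ℕ) (T : Finset (ZMod p)),
      (k : ℝ) ≤ 300 * Real.log (2 * K) ∧
      (∀ a b : Fin k → ℤ, (∀ i, |a i| ≤ L i) → (∀ i, |b i| ≤ L i) →
        ∑ i, a i • v i = ∑ i, b i • v i → a = b) ∧
      ∏ i, (2 * L i + 1) ≤ A.card ∧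
      (T.card : ℝ) ≤ CK K ∧
      ∀ a ∈ A, ∃ t ∈ T, ∃ c : Fin k → ℤ, (∀ i, |c i| ≤ L i) ∧ a = t + ∑ i, c i • v i := by
  classical
  obtain ⟨κ, hκ⟩ : ∃ κ : ℝ, κ = Real.log (2 * K) := ⟨_, rfl⟩
  have hκlog2 : Real.log 2 ≤ κ := by
    rw [hκ]; exact Real.log_le_log (by norm_num) (by linarith)
  have hκ69 : (0.69 : ℝ) < κ := lt_of_lt_of_le log_two_gt hκlog2
  haveI : AddGroup.FG (ZMod p) := AddGroup.fg_of_finite
  obtain ⟨S, X, V, ρ, m, N, ψ, hfin, hV1, hsize, hρ0, hρ12, hX, hN, h1, h2, hm, hXV⟩ :=
    structure_thm hA hK hK1 hκ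
  have hlogκ : 0 ≤ Real.log (1 + κ) := Real.log_nonneg (by linarith)
  have hXne : X.Nonempty := by
    obtain ⟨a, ha⟩ := hA
    obtain ⟨x, hx, _⟩ := hX a ha
    exact ⟨x, hx⟩
  by_cases hS : ann S = ⊥
  · right
    obtain ⟨k, v, L, T, hk, hprop, hvol, hT, hcov⟩ :=
      gap_final S hfin hA hV1 hsize hρ0 hρ12 hX N ψ hN h1 h2 hS
    refine ⟨k, v, L, T, ?_, hprop, hvol, ?_, hcov⟩
    · rw [← hκ]
      have : (k : ℝ) ≤ m := by exact_mod_cast hk
      exact this.trans hm
    · unfold CK
      rw [← exp_eq_rpow hK1, ← hκ]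
      have h3 : ((4 * (m : ℝ) + 1)) ^ m ≤
          Real.exp ((300 * κ) * (8 * (1 + Real.log (1 + κ)))) :=
        pow_le_exp (by positivity) (log_4m_le hκ69 hm) hm (by positivity)
      have h4 : (12 * (m : ℝ) ^ 3) ^ m ≤
          Real.exp ((300 * κ) * (20 * (1 + Real.log (1 + κ)))) := by
        rcases Nat.eq_zero_or_pos m with h0 | hpos
        · subst h0
          rw [pow_zero]
          exact Real.one_le_exp (by positivity)
        · have hm1 : (0 : ℝ) < m := by exact_mod_cast hpos
          exact pow_le_exp (by positivity) (log_12m_le hκ69 hm hpos) hm (by positivity)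
      have hV0 : 0 ≤ V := by linarith
      calc (T.card : ℝ) ≤ X.card * (V * (4 * m + 1) ^ m * (12 * m ^ 3) ^ m) := hT
        _ = (X.card * V) * ((4 * m + 1) ^ m * (12 * m ^ 3) ^ m) := by ring
        _ ≤ Real.exp (8000 * κ * (1 + Real.log (1 + κ))) *
              (Real.exp ((300 * κ) * (8 * (1 + Real.log (1 + κ)))) *
                Real.exp ((300 * κ) * (20 * (1 + Real.log (1 + κ))))) := by
            apply mul_le_mul hXV _ (by positivity) (by positivity)
            exact mul_le_mul h3 h4 (by positivity) (by positivity)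
        _ = Real.exp (8000 * κ * (1 + Real.log (1 + κ)) +
              ((300 * κ) * (8 * (1 + Real.log (1 + κ))) +
                (300 * κ) * (20 * (1 + Real.log (1 + κ))))) := by
            rw [← Real.exp_add, ← Real.exp_add]
        _ ≤ Real.exp (17000 * κ * (1 + Real.log (1 + κ))) := by
            apply Real.exp_le_exp.2
            have h10 : 0 ≤ κ * Real.log (1 + κ) := mul_nonneg (by linarith) hlogκ
            nlinarith
  · left
    have htop : ann S = ⊤ := by
      have hcard : Nat.card (ann S) ∣ p := by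
        have h := AddSubgroup.card_addSubgroup_dvd_card (ann S)
        rwa [Nat.card_eq_fintype_card (α := ZMod p), ZMod.card] at h
      rcases (Nat.dvd_prime (Fact.out : p.Prime)).1 hcard with h | h
      · exfalso
        exact hS (AddSubgroup.card_eq_one.1 h)
      · apply AddSubgroup.eq_top_of_card_eq
        rw [h, Nat.card_eq_fintype_card, ZMod.card]
    have hb : bohr S (1 / 6) = Set.univ := by
      ext x
      simp only [Set.mem_univ, iff_true]
      intro γ hγ
      have hx : x ∈ ann S := by rw [htop]; exact AddSubgroup.mem_top x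
      have h5 : γ x = 0 := hx γ hγ
      rw [h5, norm_zero]
      norm_num
    rw [hb, Set.ncard_univ, Nat.card_eq_fintype_card, ZMod.card] at hsize
    refine hsize.trans (mul_le_mul_of_nonneg_right ?_ (Nat.cast_nonneg _))
    have hX1 : (1 : ℝ) ≤ X.card := by exact_mod_cast hXne.card_pos
    have h5 : V ≤ X.card * V := le_mul_of_one_le_left (by linarith) hX1
    refine h5.trans (hXV.trans ?_)
    unfold CK
    rw [← exp_eq_rpow hK1, ← hκ]
    apply Real.exp_le_exp.2
    have h10 : 0 ≤ κ * Real.log (1 + κ) := mul_nonneg (by linarith) hlogκ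
    nlinarith

/-- sets of bounded doubling are covered by few progressions of length `L` with a common
difference -/
theorem ap_cover {K : ℝ} (hK1 : 1 ≤ K) : ∃ (C : ℝ) (d : ℕ), 1 ≤ C ∧ 1 ≤ d ∧
    ∀ (p : ℕ) [Fact p.Prime] (A : Finset (ZMod p)), A.Nonempty →
      ((A + A).card : ℝ) ≤ K * A.card → ∀ L : ℕ, 2 ≤ L → L ≤ p → C * (L : ℝ) ^ d ≤ A.card →
        ∃ (v : ZMod p) (T : Finset (ZMod p)), v ≠ 0 ∧ (T.card : ℝ) * L ≤ C * A.card ∧
          ∀ a ∈ A, ∃ t ∈ T, ∃ i : ℕ, i < L ∧ a = t + (i : ZMod p) * v := by
  classical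
  refine ⟨2 * CK K, ⌊300 * Real.log (2 * K)⌋₊ + 1, by linarith [CK_ge_one hK1], by omega, ?_⟩
  intro p _ A hA hK L hL hLp hsize
  have hC1 := CK_ge_one hK1
  have hLR : (2 : ℝ) ≤ L := by exact_mod_cast hL
  rcases gap_zmod hA hK hK1 with hbig | ⟨k, v, N, T, hk, hprop, hvol, hT, hcov⟩
  · -- dense case
    refine ⟨1, (Finset.range (p / L + 1)).image (fun j : ℕ => ((j * L : ℕ) : ZMod p)), one_ne_zero,
      ?_, ?_⟩
    · have h1 : (((Finset.range (p / L + 1)).image (fun j : ℕ => ((j * L : ℕ) : ZMod p))).card : ℝ)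
          ≤ (p / L + 1 : ℕ) := by
        have := Finset.card_image_le (s := Finset.range (p / L + 1))
          (f := fun j : ℕ => ((j * L : ℕ) : ZMod p))
        rw [Finset.card_range] at this
        exact_mod_cast this
      have h2 : ((p / L + 1 : ℕ) : ℝ) * L ≤ 2 * p := by
        have h3 : (p / L + 1) * L ≤ 2 * p := by
          have h4 : p / L * L ≤ p := Nat.div_mul_le_self p L
          nlinarith
        exact_mod_cast h3
      calc _ ≤ ((p / L + 1 : ℕ) : ℝ) * L := mul_le_mul_of_nonneg_right h1 (by linarith)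
        _ ≤ 2 * p := h2
        _ ≤ 2 * (CK K * A.card) := by linarith
        _ = _ := by ring
    · intro a _
      refine ⟨((a.val / L * L : ℕ) : ZMod p), ?_, a.val % L, Nat.mod_lt _ (by omega), ?_⟩
      · rw [Finset.mem_image]
        refine ⟨a.val / L, ?_, rfl⟩
        rw [Finset.mem_range]
        have := Nat.div_le_div_right (c := L) (ZMod.val_lt a).le
        omega
      · rw [mul_one, ← Nat.cast_add]
        have : a.val / L * L + a.val % L = a.val := Nat.div_add_mod' _ _
        rw [this, ZMod.natCast_zmod_val]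
  · -- progression case
    have hk' : k ≤ ⌊300 * Real.log (2 * K)⌋₊ := Nat.le_floor hk
    -- covering bound
    have hAle : (A.card : ℝ) ≤ CK K * ∏ i, ((2 * N i + 1 : ℕ) : ℝ) := by
      have hsub : A ⊆ (T ×ˢ gapBox N).image (fun q => q.1 + ∑ i, q.2 i • v i) := by
        intro a ha
        obtain ⟨t, ht, c, hc, e⟩ := hcov a ha
        rw [Finset.mem_image]
        exact ⟨(t, c), Finset.mem_product.2 ⟨ht, gap_mem_box.2 hc⟩, e.symm⟩
      have h1 := (Finset.card_le_card hsub).trans Finset.card_image_le
      rw [Finset.card_product, gap_card_box] at h1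
      have h2 : (A.card : ℝ) ≤ T.card * ∏ i, ((2 * N i + 1 : ℕ) : ℝ) := by exact_mod_cast h1
      refine h2.trans (mul_le_mul_of_nonneg_right hT ?_)
      positivity
    have hLd : (1 : ℝ) ≤ (L : ℝ) ^ (⌊300 * Real.log (2 * K)⌋₊ + 1) := one_le_pow₀ (by linarith)
    -- a long side
    obtain ⟨i0, hi0⟩ : ∃ i0 : Fin k, L ≤ 2 * N i0 + 1 := by
      by_contra hcon
      push Not at hcon
      have h1 : ∏ i, ((2 * N i + 1 : ℕ) : ℝ) ≤ (L : ℝ) ^ k := by
        calc ∏ i, ((2 * N i + 1 : ℕ) : ℝ) ≤ ∏ _i : Fin k, (L : ℝ) := by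
              refine Finset.prod_le_prod (fun _ _ => by positivity) (fun i _ => ?_)
              exact_mod_cast (hcon i).le
          _ = (L : ℝ) ^ k := by simp
      have h2 : (L : ℝ) ^ k ≤ (L : ℝ) ^ (⌊300 * Real.log (2 * K)⌋₊ + 1) :=
        pow_le_pow_right₀ (by linarith) (by omega)
      have h3 : (A.card : ℝ) ≤ CK K * (L : ℝ) ^ (⌊300 * Real.log (2 * K)⌋₊ + 1) :=
        hAle.trans (mul_le_mul_of_nonneg_left (h1.trans h2) (by linarith))
      nlinarith
    have hv0 : v i0 ≠ 0 := by
      intro h0
      have hN1 : 1 ≤ N i0 := by omega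
      have h1 := hprop (Pi.single i0 1) 0 (by
        intro i
        by_cases hi : i = i0
        · subst hi; simp; omega
        · rw [Pi.single_eq_of_ne hi]; simp) (by intro i; simp) (by
        rw [Finset.sum_eq_single i0]
        · simp [h0]
        · intro j _ hj
          rw [Pi.single_eq_of_ne hj, zero_smul]
        · intro h; exact absurd (Finset.mem_univ _) h)
      have h2 := congrFun h1 i0
      simp at h2
    set M := 2 * N i0 + 1 with hM
    let box : Finset (Fin k → ℤ) :=
      Fintype.piFinset (fun i => if i = i0 then {0} else Finset.Icc (-(N i : ℤ)) (N i))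
    have hbox : box.card = ∏ i, (if i = i0 then 1 else 2 * N i + 1) := by
      simp only [box, Fintype.card_piFinset]
      refine Finset.prod_congr rfl fun i _ => ?_
      split_ifs
      · simp
      · rw [Int.card_Icc]; omega
    have hprod : M * ∏ i, (if i = i0 then 1 else 2 * N i + 1) = ∏ i, (2 * N i + 1) := by
      rw [← Finset.mul_prod_erase Finset.univ (fun i => 2 * N i + 1) (Finset.mem_univ i0),
        ← Finset.mul_prod_erase Finset.univ (fun i => if i = i0 then 1 else 2 * N i + 1)
          (Finset.mem_univ i0)]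
      rw [if_pos rfl, one_mul]
      congr 1
      refine Finset.prod_congr rfl fun i hi => ?_
      rw [if_neg (Finset.ne_of_mem_erase hi)]
    let T' : Finset (ZMod p) := (T ×ˢ (box ×ˢ Finset.range ((M - 1) / L + 1))).image
      (fun q => q.1 + (∑ i, q.2.1 i • v i + ((q.2.2 * L : ℤ) - N i0) • v i0))
    refine ⟨v i0, T', hv0, ?_, ?_⟩
    · have h1 : T'.card ≤ T.card * (box.card * ((M - 1) / L + 1)) := by
        refine Finset.card_image_le.trans ?_
        rw [Finset.card_product, Finset.card_product, Finset.card_range]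
      have h2 : ((M - 1) / L + 1) * L ≤ 2 * M := by
        have h4 : (M - 1) / L * L ≤ M - 1 := Nat.div_mul_le_self _ L
        have h5 : ((M - 1) / L + 1) * L = (M - 1) / L * L + L := by ring
        omega
      have h3 : (T'.card : ℝ) * L ≤ T.card * (2 * A.card) := by
        have h6 : T'.card * L ≤ T.card * (2 * A.card) := by
          calc T'.card * L ≤ T.card * (box.card * ((M - 1) / L + 1)) * L :=
                Nat.mul_le_mul_right _ h1
            _ = T.card * (box.card * (((M - 1) / L + 1) * L)) := by ring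
            _ ≤ T.card * (box.card * (2 * M)) :=
                Nat.mul_le_mul_left _ (Nat.mul_le_mul_left _ h2)
            _ = T.card * (2 * (M * box.card)) := by ring
            _ = T.card * (2 * ∏ i, (2 * N i + 1)) := by rw [hbox, hprod]
            _ ≤ T.card * (2 * A.card) :=
                Nat.mul_le_mul_left _ (Nat.mul_le_mul_left _ hvol)
        exact_mod_cast h6
      calc (T'.card : ℝ) * L ≤ T.card * (2 * A.card) := h3
        _ ≤ CK K * (2 * A.card) := mul_le_mul_of_nonneg_right hT (by positivity)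
        _ = _ := by ring
    · intro a ha
      obtain ⟨t, ht, c, hc, e⟩ := hcov a ha
      set n : ℕ := (c i0 + N i0).toNat with hn
      have hc0 := abs_le.1 (hc i0)
      have hnz : (n : ℤ) = c i0 + N i0 := by rw [hn]; omega
      have hnM : n ≤ M - 1 := by omega
      refine ⟨t + (∑ i, (if i = i0 then 0 else c i) • v i
          + (((n / L : ℕ) * L : ℤ) - N i0) • v i0), ?_, n % L, Nat.mod_lt _ (by omega), ?_⟩
      · rw [Finset.mem_image]
        refine ⟨(t, (fun i => if i = i0 then 0 else c i, n / L)), ?_, rfl⟩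
        rw [Finset.mem_product, Finset.mem_product]
        refine ⟨ht, ?_, ?_⟩
        · rw [Fintype.mem_piFinset]
          intro i
          by_cases hi : i = i0
          · simp [hi]
          · simp only [if_neg hi, Finset.mem_Icc]
            exact abs_le.1 (hc i)
        · rw [Finset.mem_range]
          have := Nat.div_le_div_right (c := L) hnM
          simp only
          omega
      · rw [e]
        have h1 : ∑ i, c i • v i = ∑ i, (if i = i0 then 0 else c i) • v i + c i0 • v i0 := by
          rw [← Finset.add_sum_erase Finset.univ (fun i => c i • v i) (Finset.mem_univ i0),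
            ← Finset.add_sum_erase Finset.univ (fun i => (if i = i0 then 0 else c i) • v i)
              (Finset.mem_univ i0)]
          simp only [if_true, zero_smul, zero_add]
          rw [add_comm]
          congr 1
          refine Finset.sum_congr rfl fun i hi => ?_
          rw [if_neg (Finset.ne_of_mem_erase hi)]
        have h2 : c i0 = ((n / L : ℕ) * L : ℤ) - N i0 + (n % L : ℕ) := by
          have h3 : (n / L * L + n % L : ℕ) = n := Nat.div_add_mod' _ _
          have h4 : ((n / L * L + n % L : ℕ) : ℤ) = n := by rw [h3]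
          push_cast at h4
          push_cast
          omega
        rw [h1]
        conv_lhs => rw [h2]
        rw [add_smul]
        have h5 : (((n % L : ℕ) : ℤ)) • v i0 = ((n % L : ℕ) : ZMod p) * v i0 := by
          rw [zsmul_eq_mul, Int.cast_natCast]
        rw [h5]
        ring

end Pool.Agent.W27.SD
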