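import Pool.Agent.W27.SD.Thick
import Pool.Agent.W27.SD.Gap

/-! Uniform power saving for all dense subsets of sets of bounded doubling, for almost all
characters of every prime modulus. -/

set_option autoImplicit false

open Finset
open scoped Pointwise

namespace Pool.Agent.W27.SD

theorem exists_large (a c : ℝ) (ha : 0 < a) : ∃ P : ℕ, ∀ p : ℕ, P ≤ p → c < (p : ℝ) ^ a := by
  have h1 := (tendsto_rpow_atTop ha).comp tendsto_natCast_atTop_atTop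
  have h2 := h1.eventually_gt_atTop c
  obtain ⟨P, hP⟩ := Filter.eventually_atTop.1 h2
  exact ⟨P, fun p hp => hP p hp⟩

/-- the number of characters with many bad shifts -/
theorem exc_card {p : ℕ} [Fact p.Prime] (L k : ℕ) [NeZero (2 * L)] (hL : 2 * L ≤ p) (hL1 : 1 ≤ L)
    (hk : 1 ≤ k) (hLk : (p : ℝ) ≤ (L : ℝ) ^ k) (X : ℝ) (hX : 0 < X) :
    ({χ : DirichletCharacter ℂ p |
        X < ((Bad L χ ((L : ℝ) ^ (1 - 1 / (2 * (k : ℝ))))).card : ℝ)}.ncard : ℝ)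
      ≤ (2 * 4 ^ k * (k + (k : ℝ) ^ k)) * p * (L : ℝ) ^ 2 / X := by
  classical
  set B : ℝ := (L : ℝ) ^ (1 - 1 / (2 * (k : ℝ))) with hB
  have hLR : (1 : ℝ) ≤ L := by exact_mod_cast hL1
  have hL0 : (0 : ℝ) < L := by linarith
  have hkR : (1 : ℝ) ≤ k := by exact_mod_cast hk
  have hp0 : (0 : ℝ) < p := by exact_mod_cast (Fact.out : p.Prime).pos
  have hB0 : 0 ≤ B := by positivity
  have hBk : B ^ (2 * k) * L = (L : ℝ) ^ (2 * k) := by
    rw [hB, ← Real.rpow_natCast, ← Real.rpow_mul hL0.le]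
    have e1 : (1 - 1 / (2 * (k : ℝ))) * ((2 * k : ℕ) : ℝ) = 2 * (k : ℝ) - 1 := by
      push_cast
      field_simp
    rw [e1]
    have e2 : (L : ℝ) ^ (2 * (k : ℝ) - 1) * L = (L : ℝ) ^ (2 * (k : ℝ) - 1 + 1) := by
      rw [Real.rpow_add_one hL0.ne']
    rw [e2, ← Real.rpow_natCast]
    congr 1
    push_cast
    ring
  have h1 := bad_sum (p := p) L hL B hB0 k
  -- total number of bad pairs
  have h2 : (∑ χ : DirichletCharacter ℂ p, ((Bad L χ B).card : ℝ))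
      ≤ (2 * 4 ^ k * (k + (k : ℝ) ^ k)) * p * (L : ℝ) ^ 2 := by
    have h3 : (p : ℝ) * ((2 * L : ℝ) ^ k * (k : ℝ) ^ k) ≤ (2 * L : ℝ) ^ (2 * k) * (k : ℝ) ^ k := by
      have h4 : (p : ℝ) ≤ (2 * L : ℝ) ^ k :=
        hLk.trans (pow_le_pow_left₀ hL0.le (by linarith) k)
      calc (p : ℝ) * ((2 * L : ℝ) ^ k * (k : ℝ) ^ k)
          ≤ (2 * L : ℝ) ^ k * ((2 * L : ℝ) ^ k * (k : ℝ) ^ k) :=
            mul_le_mul_of_nonneg_right h4 (by positivity)
        _ = _ := by rw [two_mul k, pow_add]; ring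
    have h5 : (∑ χ : DirichletCharacter ℂ p, ((Bad L χ B).card : ℝ)) * B ^ (2 * k)
        ≤ (2 * L : ℝ) * ((p : ℝ) * ((2 * L : ℝ) ^ (2 * k) * (k + (k : ℝ) ^ k))) := by
      refine h1.trans ?_
      refine mul_le_mul_of_nonneg_left (mul_le_mul_of_nonneg_left ?_ hp0.le) (by positivity)
      nlinarith
    have h6 : (∑ χ : DirichletCharacter ℂ p, ((Bad L χ B).card : ℝ)) * (L : ℝ) ^ (2 * k)
        ≤ ((2 * 4 ^ k * (k + (k : ℝ) ^ k)) * p * (L : ℝ) ^ 2) * (L : ℝ) ^ (2 * k) := by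
      rw [← hBk]
      calc (∑ χ : DirichletCharacter ℂ p, ((Bad L χ B).card : ℝ)) * (B ^ (2 * k) * L)
          = ((∑ χ : DirichletCharacter ℂ p, ((Bad L χ B).card : ℝ)) * B ^ (2 * k)) * L := by ring
        _ ≤ ((2 * L : ℝ) * ((p : ℝ) * ((2 * L : ℝ) ^ (2 * k) * (k + (k : ℝ) ^ k)))) * L :=
            mul_le_mul_of_nonneg_right h5 hL0.le
        _ = ((2 * 4 ^ k * (k + (k : ℝ) ^ k)) * p * (L : ℝ) ^ 2) * (L : ℝ) ^ (2 * k) := by
            rw [mul_pow, pow_mul (2 : ℝ) 2 k]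
            norm_num
            ring
        _ = ((2 * 4 ^ k * (k + (k : ℝ) ^ k)) * p * (L : ℝ) ^ 2) * (B ^ (2 * k) * L) := by rw [hBk]
    exact le_of_mul_le_mul_right h6 (by positivity)
  have h7 : {χ : DirichletCharacter ℂ p | X < ((Bad L χ B).card : ℝ)}
      = ((univ.filter fun χ : DirichletCharacter ℂ p => X < ((Bad L χ B).card : ℝ)) :
        Finset (DirichletCharacter ℂ p)) := by
    ext χ; simp
  rw [h7, Set.ncard_coe_finset, le_div_iff₀ hX]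
  refine le_trans ?_ h2
  calc ((univ.filter fun χ : DirichletCharacter ℂ p => X < ((Bad L χ B).card : ℝ)).card : ℝ) * X
      = ∑ χ ∈ univ.filter fun χ : DirichletCharacter ℂ p => X < ((Bad L χ B).card : ℝ), X := by
        rw [Finset.sum_const, nsmul_eq_mul]
    _ ≤ ∑ χ ∈ univ.filter fun χ : DirichletCharacter ℂ p => X < ((Bad L χ B).card : ℝ),
          ((Bad L χ B).card : ℝ) :=
        Finset.sum_le_sum fun χ hχ => (Finset.mem_filter.1 hχ).2.le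
    _ ≤ _ := Finset.sum_le_sum_of_subset_of_nonneg (Finset.subset_univ _) fun _ _ _ => by positivity

/-- bound for the sum over a covered set when there are few bad shifts -/
theorem final_bound {p : ℕ} [Fact p.Prime] (L k : ℕ) [NeZero (2 * L)] (hL1 : 1 ≤ L)
    (hk : 1 ≤ k) {κ τ C δ : ℝ} (hκ : 0 < κ) (hLκ : (p : ℝ) ^ κ ≤ L)
    (hτ0 : 0 < τ) (hτ : τ ≤ κ / (8 * k)) (hC : 1 ≤ C) (hp : C + 1 < (p : ℝ) ^ (κ / (4 * (k : ℝ))))
    (χ : DirichletCharacter ℂ p)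
    (hχ : ((Bad L χ ((L : ℝ) ^ (1 - 1 / (2 * (k : ℝ))))).card : ℝ) ≤ (p : ℝ) ^ δ / (L : ℝ) ^ 2)
    (A T : Finset (ZMod p)) (v : ZMod p) (hv : v ≠ 0) (hA : (p : ℝ) ^ δ < A.card)
    (hT : (T.card : ℝ) * L ≤ C * ((p : ℝ) ^ τ * A.card))
    (hcov : ∀ a ∈ A, ∃ t ∈ T, ∃ i : ℕ, i < L ∧ a = t + (i : ZMod p) * v) :
    ‖∑ a ∈ A, ∑ b ∈ A, χ (a - b)‖ < (A.card : ℝ) ^ (2 - τ) := by
  set B : ℝ := (L : ℝ) ^ (1 - 1 / (2 * (k : ℝ))) with hB
  have hLR : (1 : ℝ) ≤ L := by exact_mod_cast hL1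
  have hL0 : (0 : ℝ) < L := by linarith
  have hkR : (1 : ℝ) ≤ k := by exact_mod_cast hk
  have hpn : 1 ≤ p := (Fact.out : p.Prime).one_lt.le
  have hp1 : (1 : ℝ) ≤ p := by exact_mod_cast hpn
  have hp0 : (0 : ℝ) < p := by linarith
  have hA0 : (0 : ℝ) < A.card := lt_of_le_of_lt (by positivity) hA
  have hAp : (A.card : ℝ) ≤ p := by
    have h := Finset.card_le_univ A
    rw [ZMod.card] at h
    exact_mod_cast h
  have hB0 : 0 ≤ B := by positivity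
  have h1 := thick_bound L χ B hB0 v hv T A hcov
  have hLdec : (L : ℝ) ^ (-(1 / (2 * (k : ℝ)))) ≤ (p : ℝ) ^ (-(κ / (2 * (k : ℝ)))) := by
    have e1 : (p : ℝ) ^ (-(κ / (2 * (k : ℝ)))) = ((p : ℝ) ^ κ) ^ (-(1 / (2 * (k : ℝ)))) := by
      rw [← Real.rpow_mul hp0.le]
      congr 1
      field_simp
    rw [e1]
    apply Real.rpow_le_rpow_of_nonpos (by positivity) hLκ
    have : 0 < 1 / (2 * (k : ℝ)) := by positivity
    linarith
  have hBL : B = L * (L : ℝ) ^ (-(1 / (2 * (k : ℝ)))) := by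
    rw [hB, sub_eq_add_neg, Real.rpow_add hL0, Real.rpow_one]
  have hinv : 1 / (L : ℝ) ≤ (p : ℝ) ^ (-(κ / (2 * (k : ℝ)))) := by
    refine le_trans ?_ hLdec
    rw [one_div, ← Real.rpow_neg_one]
    apply Real.rpow_le_rpow_of_exponent_le hLR
    have : 1 / (2 * (k : ℝ)) ≤ 1 := by
      rw [div_le_one (by positivity)]
      linarith
    linarith
  set D : ℝ := (p : ℝ) ^ (-(κ / (2 * (k : ℝ)))) with hD
  have hD0 : 0 < D := by positivity
  have hpτ : (1 : ℝ) ≤ (p : ℝ) ^ τ := Real.one_le_rpow hp1 hτ0.le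
  have h2 : B * T.card * A.card ≤ C * (p : ℝ) ^ τ * D * (A.card : ℝ) ^ 2 := by
    calc B * T.card * A.card
        = (L : ℝ) ^ (-(1 / (2 * (k : ℝ)))) * (T.card * L) * A.card := by rw [hBL]; ring
      _ ≤ D * (C * ((p : ℝ) ^ τ * A.card)) * A.card := by
          refine mul_le_mul_of_nonneg_right ?_ hA0.le
          exact mul_le_mul hLdec hT (by positivity) hD0.le
      _ = _ := by ring
  have h3 : L * ((Bad L χ B).card : ℝ) * A.card ≤ D * (A.card : ℝ) ^ 2 := by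
    calc L * ((Bad L χ B).card : ℝ) * A.card
        ≤ L * ((p : ℝ) ^ δ / (L : ℝ) ^ 2) * A.card := by
          refine mul_le_mul_of_nonneg_right (mul_le_mul_of_nonneg_left hχ hL0.le) hA0.le
      _ = (1 / L) * (p : ℝ) ^ δ * A.card := by field_simp
      _ ≤ D * (A.card : ℝ) * A.card := by
          refine mul_le_mul_of_nonneg_right ?_ hA0.le
          exact mul_le_mul hinv hA.le (by positivity) hD0.le
      _ = _ := by ring
  have h4 : ‖∑ a ∈ A, ∑ b ∈ A, χ (a - b)‖ ≤ (C + 1) * ((p : ℝ) ^ τ * D) * (A.card : ℝ) ^ 2 := by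
    refine h1.trans ((add_le_add h2 h3).trans ?_)
    have h5 : D * (A.card : ℝ) ^ 2 ≤ (p : ℝ) ^ τ * (D * (A.card : ℝ) ^ 2) :=
      le_mul_of_one_le_left (by positivity) hpτ
    nlinarith
  refine lt_of_le_of_lt h4 ?_
  have h6 : (p : ℝ) ^ τ * D ≤ (p : ℝ) ^ (-τ) * (p : ℝ) ^ (-(κ / (4 * (k : ℝ)))) := by
    rw [hD, ← Real.rpow_add hp0, ← Real.rpow_add hp0]
    apply Real.rpow_le_rpow_of_exponent_le hp1
    have e1 : κ / (2 * (k : ℝ)) = 4 * (κ / (8 * k)) := by field_simp; norm_num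
    have e2 : κ / (4 * (k : ℝ)) = 2 * (κ / (8 * k)) := by field_simp; norm_num
    rw [e1, e2]
    linarith
  have h7 : (p : ℝ) ^ (-τ) ≤ (A.card : ℝ) ^ (-τ) :=
    Real.rpow_le_rpow_of_nonpos hA0 hAp (by linarith)
  have h8 : (A.card : ℝ) ^ (2 - τ) = (A.card : ℝ) ^ (-τ) * (A.card : ℝ) ^ 2 := by
    rw [sub_eq_add_neg, add_comm, Real.rpow_add hA0]
    norm_cast
  rw [h8]
  have h9 : (C + 1) * ((p : ℝ) ^ τ * D) < (A.card : ℝ) ^ (-τ) := by
    have h10 : 0 < (p : ℝ) ^ (-τ) := by positivity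
    calc (C + 1) * ((p : ℝ) ^ τ * D)
        ≤ (C + 1) * ((p : ℝ) ^ (-τ) * (p : ℝ) ^ (-(κ / (4 * (k : ℝ))))) :=
          mul_le_mul_of_nonneg_left h6 (by linarith)
      _ = (p : ℝ) ^ (-τ) * ((C + 1) * (p : ℝ) ^ (-(κ / (4 * (k : ℝ))))) := by ring
      _ < (p : ℝ) ^ (-τ) * 1 := by
          refine mul_lt_mul_of_pos_left ?_ h10
          rw [Real.rpow_neg hp0.le, ← div_eq_mul_inv, div_lt_one (by positivity)]
          exact hp
      _ ≤ _ := by rw [mul_one]; exact h7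
  exact mul_lt_mul_of_pos_right h9 (by positivity)

/-- the main theorem -/
theorem small_doubling (δ ε K : ℝ) (hδ : 0 < δ) (hε : 0 < ε) :
    ∃ τ : ℝ, 0 < τ ∧ ∃ P : ℕ, ∀ p : ℕ, p.Prime → P ≤ p →
      ({χ : DirichletCharacter ℂ p | χ ≠ 1 ∧ ∃ A B : Finset (ZMod p), A ⊆ B ∧
          (p : ℝ) ^ δ < (A.card : ℝ) ∧ (B.card : ℝ) ≤ (p : ℝ) ^ τ * A.card ∧
          ((B + B).card : ℝ) ≤ K * B.card ∧
          (A.card : ℝ) ^ (2 - τ) ≤ ‖∑ a ∈ A, ∑ b ∈ A, χ (a - b)‖}.ncard : ℝ)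
        ≤ (p : ℝ) ^ (1 - δ + ε) := by
  classical
  obtain ⟨C, d, hC1, hd1, hcov⟩ := ap_cover (K := max K 1) (le_max_right _ _)
  have hdR : (1 : ℝ) ≤ d := by exact_mod_cast hd1
  set κ : ℝ := min (1 / 4) (min (ε / 8) (δ / (4 * d))) with hκdef
  have hκ0 : 0 < κ := by
    rw [hκdef]
    refine lt_min (by norm_num) (lt_min (by positivity) (by positivity))
  have hκ4 : κ ≤ 1 / 4 := min_le_left _ _
  have hκε : κ ≤ ε / 8 := (min_le_right _ _).trans (min_le_left _ _)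
  have hκδ : κ ≤ δ / (4 * d) := (min_le_right _ _).trans (min_le_right _ _)
  obtain ⟨k, hk⟩ := exists_nat_ge (1 / κ)
  have hkR : (4 : ℝ) ≤ k := by
    refine le_trans ?_ hk
    rw [le_div_iff₀ hκ0]
    linarith
  have hk1 : 1 ≤ k := by
    have : (1 : ℝ) ≤ k := by linarith
    exact_mod_cast this
  have hκk : 1 ≤ κ * k := by
    rw [div_le_iff₀ hκ0] at hk
    linarith
  set Ck : ℝ := 2 * 4 ^ k * (k + (k : ℝ) ^ k) with hCk
  obtain ⟨P1, hP1⟩ := exists_large κ 2 hκ0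
  obtain ⟨P2, hP2⟩ := exists_large (1 / 2) 4 (by norm_num)
  obtain ⟨P3, hP3⟩ := exists_large (δ / 2) (C * 2 ^ d) (by positivity)
  obtain ⟨P4, hP4⟩ := exists_large (ε / 2) (Ck * 16) (by positivity)
  obtain ⟨P5, hP5⟩ := exists_large (κ / (4 * (k : ℝ))) (C + 1) (by positivity)
  refine ⟨κ / (8 * k), by positivity, max (max P1 P2) (max P3 (max P4 P5)), ?_⟩
  intro p hp hpP
  haveI : Fact p.Prime := ⟨hp⟩
  have q1 := hP1 p (((le_max_left _ _).trans (le_max_left _ _)).trans hpP)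
  have q2 := hP2 p (((le_max_right _ _).trans (le_max_left _ _)).trans hpP)
  have q3 := hP3 p (((le_max_left _ _).trans (le_max_right _ _)).trans hpP)
  have q4 := hP4 p ((((le_max_left _ _).trans (le_max_right _ _)).trans (le_max_right _ _)).trans hpP)
  have q5 := hP5 p ((((le_max_right _ _).trans (le_max_right _ _)).trans (le_max_right _ _)).trans hpP)
  have hp1 : (1 : ℝ) ≤ p := by exact_mod_cast hp.one_lt.le
  have hp0 : (0 : ℝ) < p := by linarith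
  set L : ℕ := ⌈(p : ℝ) ^ κ⌉₊ with hLdef
  have hLκ : (p : ℝ) ^ κ ≤ L := Nat.le_ceil _
  have hLu : (L : ℝ) ≤ 2 * (p : ℝ) ^ κ := by
    have h1 : (L : ℝ) < (p : ℝ) ^ κ + 1 := Nat.ceil_lt_add_one (by positivity)
    linarith
  have hL2R : (2 : ℝ) ≤ L := by linarith
  have hL2 : 2 ≤ L := by exact_mod_cast hL2R
  haveI : NeZero (2 * L) := ⟨by omega⟩
  have hL0 : (0 : ℝ) < L := by linarith
  have h2Lp : 2 * L ≤ p := by
    have h1 : (p : ℝ) ^ κ ≤ (p : ℝ) ^ (1 / 2 : ℝ) :=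
      Real.rpow_le_rpow_of_exponent_le hp1 (by linarith)
    have h2 : (2 * L : ℝ) ≤ p := by
      calc (2 * L : ℝ) ≤ 4 * (p : ℝ) ^ (1 / 2 : ℝ) := by linarith
        _ ≤ (p : ℝ) ^ (1 / 2 : ℝ) * (p : ℝ) ^ (1 / 2 : ℝ) :=
            mul_le_mul_of_nonneg_right q2.le (by positivity)
        _ = p := by rw [← Real.rpow_add hp0]; norm_num
    exact_mod_cast h2
  have hLk : (p : ℝ) ≤ (L : ℝ) ^ k := by
    calc (p : ℝ) = (p : ℝ) ^ (1 : ℝ) := (Real.rpow_one _).symm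
      _ ≤ (p : ℝ) ^ (κ * k) := Real.rpow_le_rpow_of_exponent_le hp1 hκk
      _ = ((p : ℝ) ^ κ) ^ k := by rw [Real.rpow_mul hp0.le, Real.rpow_natCast]
      _ ≤ (L : ℝ) ^ k := pow_le_pow_left₀ (by positivity) hLκ k
  have hX : 0 < (p : ℝ) ^ δ / (L : ℝ) ^ 2 := by positivity
  have hexc := exc_card (p := p) L k h2Lp (by omega) hk1 hLk _ hX
  have hsub : {χ : DirichletCharacter ℂ p | χ ≠ 1 ∧ ∃ A B : Finset (ZMod p), A ⊆ B ∧
          (p : ℝ) ^ δ < (A.card : ℝ) ∧ (B.card : ℝ) ≤ (p : ℝ) ^ (κ / (8 * k)) * A.card ∧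
          ((B + B).card : ℝ) ≤ K * B.card ∧
          (A.card : ℝ) ^ (2 - κ / (8 * k)) ≤ ‖∑ a ∈ A, ∑ b ∈ A, χ (a - b)‖}
      ⊆ {χ : DirichletCharacter ℂ p |
        (p : ℝ) ^ δ / (L : ℝ) ^ 2 < ((Bad L χ ((L : ℝ) ^ (1 - 1 / (2 * (k : ℝ))))).card : ℝ)} := by
    rintro χ ⟨_, A, B, hAB, hA, hBA, hBB, hlow⟩
    simp only [Set.mem_ofPred_eq]
    by_contra hcon
    rw [not_lt] at hcon
    have hA0 : (0 : ℝ) < A.card := lt_of_le_of_lt (by positivity) hA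
    have hABc : (A.card : ℝ) ≤ B.card := by exact_mod_cast Finset.card_le_card hAB
    have hBne : B.Nonempty := by
      rw [← Finset.card_pos]
      have : (0 : ℝ) < B.card := by linarith
      exact_mod_cast this
    have hBB' : ((B + B).card : ℝ) ≤ max K 1 * B.card :=
      hBB.trans (mul_le_mul_of_nonneg_right (le_max_left _ _) (Nat.cast_nonneg _))
    have hsize : C * (L : ℝ) ^ d ≤ B.card := by
      have h1 : (L : ℝ) ^ d ≤ 2 ^ d * (p : ℝ) ^ (δ / 2) := by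
        calc (L : ℝ) ^ d ≤ (2 * (p : ℝ) ^ κ) ^ d := pow_le_pow_left₀ hL0.le hLu d
          _ = 2 ^ d * (p : ℝ) ^ (κ * d) := by
              rw [mul_pow, Real.rpow_mul hp0.le, Real.rpow_natCast]
          _ ≤ 2 ^ d * (p : ℝ) ^ (δ / 2) := by
              refine mul_le_mul_of_nonneg_left ?_ (by positivity)
              apply Real.rpow_le_rpow_of_exponent_le hp1
              have h2 : κ * d ≤ δ / (4 * d) * d := mul_le_mul_of_nonneg_right hκδ (by linarith)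
              have h3 : δ / (4 * d) * d = δ / 4 := by field_simp
              linarith
      calc C * (L : ℝ) ^ d ≤ C * (2 ^ d * (p : ℝ) ^ (δ / 2)) :=
            mul_le_mul_of_nonneg_left h1 (by linarith)
        _ = (C * 2 ^ d) * (p : ℝ) ^ (δ / 2) := by ring
        _ ≤ (p : ℝ) ^ (δ / 2) * (p : ℝ) ^ (δ / 2) :=
            mul_le_mul_of_nonneg_right q3.le (by positivity)
        _ = (p : ℝ) ^ δ := by rw [← Real.rpow_add hp0]; congr 1; ring
        _ ≤ B.card := by linarith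
    obtain ⟨v, T, hv, hT, hc⟩ := hcov p B hBne hBB' L hL2 (by omega) hsize
    have hT' : (T.card : ℝ) * L ≤ C * ((p : ℝ) ^ (κ / (8 * (k : ℝ))) * A.card) :=
      hT.trans (mul_le_mul_of_nonneg_left hBA (by linarith))
    have hfin := final_bound (p := p) L k (by omega) hk1 (κ := κ) (τ := κ / (8 * k)) (C := C)
      (δ := δ) hκ0 hLκ (by positivity) le_rfl hC1 q5 χ hcon A T v hv hA hT'
      (fun a ha => hc a (hAB ha))
    linarith
  have h1 := Set.ncard_le_ncard hsub (Set.toFinite _)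
  have h2 : ({χ : DirichletCharacter ℂ p | χ ≠ 1 ∧ ∃ A B : Finset (ZMod p), A ⊆ B ∧
          (p : ℝ) ^ δ < (A.card : ℝ) ∧ (B.card : ℝ) ≤ (p : ℝ) ^ (κ / (8 * k)) * A.card ∧
          ((B + B).card : ℝ) ≤ K * B.card ∧
          (A.card : ℝ) ^ (2 - κ / (8 * k)) ≤ ‖∑ a ∈ A, ∑ b ∈ A, χ (a - b)‖}.ncard : ℝ)
      ≤ Ck * p * (L : ℝ) ^ 2 / ((p : ℝ) ^ δ / (L : ℝ) ^ 2) :=
    le_trans (by exact_mod_cast h1) hexc
  refine h2.trans ?_
  have h3 : (L : ℝ) ^ 4 ≤ 16 * (p : ℝ) ^ (ε / 2) := by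
    calc (L : ℝ) ^ 4 ≤ (2 * (p : ℝ) ^ κ) ^ 4 := pow_le_pow_left₀ hL0.le hLu 4
      _ = 16 * (p : ℝ) ^ (κ * 4) := by
          rw [mul_pow, Real.rpow_mul hp0.le]
          norm_num
      _ ≤ 16 * (p : ℝ) ^ (ε / 2) := by
          refine mul_le_mul_of_nonneg_left ?_ (by norm_num)
          apply Real.rpow_le_rpow_of_exponent_le hp1
          linarith
  have hCk0 : 0 ≤ Ck := by positivity
  have h4 : Ck * p * (L : ℝ) ^ 2 / ((p : ℝ) ^ δ / (L : ℝ) ^ 2)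
      = Ck * (L : ℝ) ^ 4 * (p : ℝ) ^ (1 - δ) := by
    rw [Real.rpow_sub hp0, Real.rpow_one]
    field_simp
  rw [h4]
  calc Ck * (L : ℝ) ^ 4 * (p : ℝ) ^ (1 - δ)
      ≤ Ck * (16 * (p : ℝ) ^ (ε / 2)) * (p : ℝ) ^ (1 - δ) := by
        refine mul_le_mul_of_nonneg_right (mul_le_mul_of_nonneg_left h3 hCk0) (by positivity)
    _ = (Ck * 16) * ((p : ℝ) ^ (ε / 2) * (p : ℝ) ^ (1 - δ)) := by ring
    _ ≤ (p : ℝ) ^ (ε / 2) * ((p : ℝ) ^ (ε / 2) * (p : ℝ) ^ (1 - δ)) :=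
        mul_le_mul_of_nonneg_right q4.le (by positivity)
    _ = (p : ℝ) ^ (1 - δ + ε) := by
        rw [← Real.rpow_add hp0, ← Real.rpow_add hp0]
        congr 1
        ring

end Pool.Agent.W27.SD
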