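import Mathlib

/-! Toeplitz forms on intervals are bounded by twisted sums. -/

set_option autoImplicit false

open Finset

namespace Pool.Agent.W27.SD

/-- the additive character `z ↦ e(σ z / m)` at an integer -/
noncomputable def ps (m : ℕ) [NeZero m] (σ : ZMod m) (z : ℤ) : ℂ :=
  (ZMod.stdAddChar (σ * (z : ZMod m)) : ℂ)

theorem ps_norm (m : ℕ) [NeZero m] (σ : ZMod m) (z : ℤ) : ‖ps m σ z‖ = 1 := by
  unfold ps
  exact AddChar.norm_apply _ _

theorem ps_sub (m : ℕ) [NeZero m] (σ : ZMod m) (y z : ℤ) :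
    ps m σ (y - z) = ps m σ y * (starRingEnd ℂ) (ps m σ z) := by
  unfold ps
  rw [← AddChar.map_neg_eq_conj, ← AddChar.map_add_eq_mul]
  congr 1
  push_cast
  ring

theorem ps_sum (m : ℕ) [NeZero m] (z : ℤ) :
    ∑ σ : ZMod m, ps m σ z = if (m : ℤ) ∣ z then (m : ℂ) else 0 := by
  unfold ps
  rw [AddChar.sum_mulShift _ (ZMod.isPrimitive_stdAddChar m), ZMod.card]
  simp only [ZMod.intCast_zmod_eq_zero_iff_dvd]
  norm_cast

theorem ps_sum_small (m : ℕ) [NeZero m] (z : ℤ) (hz : |z| < m) :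
    ∑ σ : ZMod m, ps m σ z = if z = 0 then (m : ℂ) else 0 := by
  rw [ps_sum]
  congr 1
  apply propext
  constructor
  · intro h
    exact Int.eq_zero_of_abs_lt_dvd h hz
  · rintro rfl
    exact dvd_zero _

theorem parseval (L : ℕ) [NeZero (2 * L)] (A' : Finset ℤ) (hA : A' ⊆ Finset.Ico 0 (L : ℤ)) :
    ∑ σ : ZMod (2 * L), ‖∑ i ∈ A', ps (2 * L) σ i‖ ^ 2 = (2 * L : ℝ) * A'.card := by
  have h1 : ∀ σ : ZMod (2 * L), ((‖∑ i ∈ A', ps (2 * L) σ i‖ ^ 2 : ℝ) : ℂ)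
      = ∑ i ∈ A', ∑ j ∈ A', ps (2 * L) σ (i - j) := by
    intro σ
    rw [← Complex.normSq_eq_norm_sq, ← Complex.mul_conj, map_sum, Finset.sum_mul_sum]
    simp only [ps_sub]
  have h2 : ((∑ σ : ZMod (2 * L), ‖∑ i ∈ A', ps (2 * L) σ i‖ ^ 2 : ℝ) : ℂ)
      = ((2 * L : ℝ) * A'.card : ℝ) := by
    rw [Complex.ofReal_sum, Finset.sum_congr rfl (fun σ _ => h1 σ), Finset.sum_comm]
    have h3 : ∀ i ∈ A', ∑ σ : ZMod (2 * L), ∑ j ∈ A', ps (2 * L) σ (i - j) = (2 * L : ℂ) := by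
      intro i hi
      rw [Finset.sum_comm]
      have h4 : ∀ j ∈ A', ∑ σ : ZMod (2 * L), ps (2 * L) σ (i - j)
          = if i = j then (2 * L : ℂ) else 0 := by
        intro j hj
        have hi' := Finset.mem_Ico.1 (hA hi)
        have hj' := Finset.mem_Ico.1 (hA hj)
        rw [ps_sum_small _ _ (by rw [abs_lt]; push_cast; constructor <;> omega)]
        by_cases hij : i = j
        · subst hij; simp
        · rw [if_neg hij, if_neg (by omega)]
      rw [Finset.sum_congr rfl h4, Finset.sum_ite_eq, if_pos hi]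
    rw [Finset.sum_congr rfl h3, Finset.sum_const, nsmul_eq_mul]
    push_cast
    ring
  exact_mod_cast h2

theorem toeplitz (L : ℕ) [NeZero (2 * L)] (f : ℤ → ℂ) (B : ℝ) (hB0 : 0 ≤ B)
    (hB : ∀ σ : ZMod (2 * L), ‖∑ h ∈ Finset.Ioo (-(L : ℤ)) L, f h * ps (2 * L) σ h‖ ≤ B)
    (A' B' : Finset ℤ) (hA : A' ⊆ Finset.Ico 0 (L : ℤ)) (hB' : B' ⊆ Finset.Ico 0 (L : ℤ)) :
    ‖∑ i ∈ A', ∑ j ∈ B', f (i - j)‖ ≤ B * (((A'.card : ℝ) + B'.card) / 2) := by
  have hL0 : 0 < L := by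
    rcases Nat.eq_zero_or_pos L with h | h
    · exfalso
      subst h
      exact NeZero.ne (2 * 0) rfl
    · exact h
  have hLR : (0 : ℝ) < 2 * L := by positivity
  -- Fourier inversion
  have key : (2 * L : ℂ) * ∑ i ∈ A', ∑ j ∈ B', f (i - j)
      = ∑ σ : ZMod (2 * L), (∑ h ∈ Finset.Ioo (-(L : ℤ)) L, f h * ps (2 * L) σ h) *
        ((starRingEnd ℂ) (∑ i ∈ A', ps (2 * L) σ i) * ∑ j ∈ B', ps (2 * L) σ j) := by
    have e1 : ∀ i ∈ A', ∀ j ∈ B', (2 * L : ℂ) * f (i - j)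
        = ∑ σ : ZMod (2 * L), ∑ h ∈ Finset.Ioo (-(L : ℤ)) L, f h * ps (2 * L) σ (h - (i - j)) := by
      intro i hi j hj
      have hi' := Finset.mem_Ico.1 (hA hi)
      have hj' := Finset.mem_Ico.1 (hB' hj)
      rw [Finset.sum_comm]
      have e2 : ∀ h ∈ Finset.Ioo (-(L : ℤ)) L,
          ∑ σ : ZMod (2 * L), f h * ps (2 * L) σ (h - (i - j))
          = if h = i - j then f h * (2 * L : ℂ) else 0 := by
        intro h hh
        have hh' := Finset.mem_Ioo.1 hh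
        rw [← Finset.mul_sum, ps_sum_small _ _ (by rw [abs_lt]; push_cast; constructor <;> omega)]
        by_cases hij : h = i - j
        · rw [if_pos (by omega), if_pos hij]
          push_cast
          ring
        · rw [if_neg (by omega), if_neg hij, mul_zero]
      rw [Finset.sum_congr rfl e2, Finset.sum_ite_eq', if_pos]
      · ring
      · rw [Finset.mem_Ioo]; constructor <;> omega
    rw [Finset.mul_sum]
    have e3 : ∀ i ∈ A', (2 * L : ℂ) * ∑ j ∈ B', f (i - j)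
        = ∑ σ : ZMod (2 * L), ∑ j ∈ B', ∑ h ∈ Finset.Ioo (-(L : ℤ)) L,
          f h * ps (2 * L) σ (h - (i - j)) := by
      intro i hi
      rw [Finset.mul_sum, Finset.sum_congr rfl (fun j hj => e1 i hi j hj), Finset.sum_comm]
    rw [Finset.sum_congr rfl e3, Finset.sum_comm]
    refine Finset.sum_congr rfl fun σ _ => ?_
    rw [map_sum, Finset.sum_mul_sum, Finset.mul_sum]
    refine Finset.sum_congr rfl fun i _ => ?_
    rw [Finset.mul_sum]
    refine Finset.sum_congr rfl fun j _ => ?_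
    rw [Finset.sum_mul]
    refine Finset.sum_congr rfl fun h _ => ?_
    rw [ps_sub, ps_sub]
    simp only [map_mul, Complex.conj_conj]
    ring
  have hnorm : (2 * L : ℝ) * ‖∑ i ∈ A', ∑ j ∈ B', f (i - j)‖
      ≤ (2 * L : ℝ) * (B * (((A'.card : ℝ) + B'.card) / 2)) := by
    have h1 : (2 * L : ℝ) * ‖∑ i ∈ A', ∑ j ∈ B', f (i - j)‖
        = ‖(2 * L : ℂ) * ∑ i ∈ A', ∑ j ∈ B', f (i - j)‖ := by
      rw [norm_mul]
      congr 1
      have : (2 * L : ℂ) = ((2 * L : ℝ) : ℂ) := by push_cast; ring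
      rw [this, Complex.norm_real, Real.norm_of_nonneg hLR.le]
    rw [h1, key]
    refine (norm_sum_le _ _).trans ?_
    have h2 : ∀ σ : ZMod (2 * L), ‖(∑ h ∈ Finset.Ioo (-(L : ℤ)) L, f h * ps (2 * L) σ h) *
        ((starRingEnd ℂ) (∑ i ∈ A', ps (2 * L) σ i) * ∑ j ∈ B', ps (2 * L) σ j)‖
        ≤ B * ((‖∑ i ∈ A', ps (2 * L) σ i‖ ^ 2 + ‖∑ j ∈ B', ps (2 * L) σ j‖ ^ 2) / 2) := by
      intro σ
      rw [norm_mul, norm_mul, RCLike.norm_conj]
      refine mul_le_mul (hB σ) ?_ (by positivity) hB0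
      nlinarith [sq_nonneg (‖∑ i ∈ A', ps (2 * L) σ i‖ - ‖∑ j ∈ B', ps (2 * L) σ j‖)]
    refine (Finset.sum_le_sum fun σ _ => h2 σ).trans ?_
    rw [← Finset.mul_sum, ← Finset.sum_div, Finset.sum_add_distrib, parseval L A' hA,
      parseval L B' hB']
    apply le_of_eq
    ring
  exact le_of_mul_le_mul_left hnorm hLR

end Pool.Agent.W27.SD
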