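import Pool.Agent.W27.SD.Moment
import Pool.Agent.W27.SD.Toeplitz

/-! Character sums over sets covered by few progressions of length `L` with a common difference. -/

set_option autoImplicit false

open Finset

namespace Pool.Agent.W27.SD

variable {p : ℕ} [Fact p.Prime]

/-- twisted sum over the interval `(-L, L)` shifted by `W` -/
noncomputable def tw (L : ℕ) [NeZero (2 * L)] (χ : DirichletCharacter ℂ p) (W : ZMod p)
    (σ : ZMod (2 * L)) : ℂ :=
  ∑ h ∈ Finset.Ioo (-(L : ℤ)) L, χ (W + (h : ZMod p)) * ps (2 * L) σ h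

/-- shifts for which some twisted sum is large -/
noncomputable def Bad (L : ℕ) [NeZero (2 * L)] (χ : DirichletCharacter ℂ p) (B : ℝ) :
    Finset (ZMod p) := by
  classical
  exact univ.filter fun W => ∃ σ : ZMod (2 * L), B < ‖tw L χ W σ‖

theorem mem_Bad {L : ℕ} [NeZero (2 * L)] {χ : DirichletCharacter ℂ p} {B : ℝ} {W : ZMod p} :
    W ∈ Bad L χ B ↔ ∃ σ : ZMod (2 * L), B < ‖tw L χ W σ‖ := by
  classical
  unfold Bad
  simp

theorem tw_eq (L : ℕ) [NeZero (2 * L)] (hL : 2 * L ≤ p) (χ : DirichletCharacter ℂ p) (W : ZMod p)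
    (σ : ZMod (2 * L)) :
    tw L χ W σ = ∑ z ∈ (Finset.Ioo (-(L : ℤ)) L).image (fun h : ℤ => (h : ZMod p)),
      ps (2 * L) σ z.valMinAbs * χ (W + z) := by
  classical
  have hv : ∀ h ∈ Finset.Ioo (-(L : ℤ)) L, ((h : ZMod p)).valMinAbs = h := by
    intro h hh
    rw [Finset.mem_Ioo] at hh
    rw [ZMod.valMinAbs_spec]
    refine ⟨rfl, ?_⟩
    rw [Set.mem_Ioc]
    constructor <;> omega
  rw [Finset.sum_image]
  · unfold tw
    refine Finset.sum_congr rfl fun h hh => ?_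
    rw [hv h hh, mul_comm]
  · intro a ha b hb hab
    have h1 := hv a ha
    have h2 := hv b hb
    simp only at hab
    rw [hab] at h1
    exact h1.symm.trans h2

theorem bad_sum (L : ℕ) [NeZero (2 * L)] (hL : 2 * L ≤ p) (B : ℝ) (hB : 0 ≤ B) (k : ℕ) :
    (∑ χ : DirichletCharacter ℂ p, ((Bad L χ B).card : ℝ)) * B ^ (2 * k)
      ≤ (2 * L : ℝ) * ((p : ℝ) * (k * (2 * L : ℝ) ^ (2 * k) + p * ((2 * L : ℝ) ^ k * (k : ℝ) ^ k))) := by
  classical
  set s := (Finset.Ioo (-(L : ℤ)) L).image (fun h : ℤ => (h : ZMod p)) with hs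
  have hsc : (s.card : ℝ) ≤ 2 * L := by
    have h1 : s.card ≤ 2 * L := by
      refine Finset.card_image_le.trans ?_
      rw [Int.card_Ioo]
      omega
    exact_mod_cast h1
  have h1 : (∑ χ : DirichletCharacter ℂ p, ((Bad L χ B).card : ℝ)) * B ^ (2 * k)
      ≤ ∑ χ : DirichletCharacter ℂ p, ∑ W : ZMod p, ∑ σ : ZMod (2 * L), ‖tw L χ W σ‖ ^ (2 * k) := by
    rw [Finset.sum_mul]
    refine Finset.sum_le_sum fun χ _ => ?_
    rw [← nsmul_eq_mul, ← Finset.sum_const]
    have h2 : ∑ W ∈ Bad L χ B, B ^ (2 * k)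
        ≤ ∑ W ∈ Bad L χ B, ∑ σ : ZMod (2 * L), ‖tw L χ W σ‖ ^ (2 * k) := by
      refine Finset.sum_le_sum fun W hW => ?_
      obtain ⟨σ, hσ⟩ := mem_Bad.1 hW
      refine (pow_le_pow_left₀ hB hσ.le _).trans ?_
      exact Finset.single_le_sum (f := fun σ => ‖tw L χ W σ‖ ^ (2 * k))
        (fun _ _ => by positivity) (mem_univ σ)
    refine h2.trans (Finset.sum_le_sum_of_subset_of_nonneg (Finset.subset_univ _) ?_)
    intro _ _ _
    exact Finset.sum_nonneg fun _ _ => by positivity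
  refine h1.trans ?_
  have h3 : ∑ χ : DirichletCharacter ℂ p, ∑ W : ZMod p, ∑ σ : ZMod (2 * L), ‖tw L χ W σ‖ ^ (2 * k)
      = ∑ σ : ZMod (2 * L), ∑ W : ZMod p, ∑ χ : DirichletCharacter ℂ p,
        ‖∑ z ∈ s, ps (2 * L) σ z.valMinAbs * χ (W + z)‖ ^ (2 * k) := by
    rw [Finset.sum_comm]
    rw [Finset.sum_congr rfl (fun W _ => Finset.sum_comm)]
    rw [Finset.sum_comm]
    refine Finset.sum_congr rfl fun σ _ => Finset.sum_congr rfl fun W _ =>
      Finset.sum_congr rfl fun χ _ => ?_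
    rw [tw_eq L hL]
  rw [h3]
  have h4 : ∀ σ : ZMod (2 * L), ∑ W : ZMod p, ∑ χ : DirichletCharacter ℂ p,
        ‖∑ z ∈ s, ps (2 * L) σ z.valMinAbs * χ (W + z)‖ ^ (2 * k)
      ≤ (p : ℝ) * (k * (2 * L : ℝ) ^ (2 * k) + p * ((2 * L : ℝ) ^ k * (k : ℝ) ^ k)) := by
    intro σ
    refine (moment_shift s (fun z => ps (2 * L) σ z.valMinAbs) (fun z => (ps_norm _ _ _).le) k).trans ?_
    have hs0 : (0 : ℝ) ≤ s.card := Nat.cast_nonneg _
    gcongr
  refine (Finset.sum_le_sum fun σ _ => h4 σ).trans ?_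
  rw [Finset.sum_const, Finset.card_univ, ZMod.card, nsmul_eq_mul]
  push_cast
  exact le_rfl

/-- bound for the sum over a set covered by `T.card` progressions of length `L` -/
theorem thick_bound (L : ℕ) [NeZero (2 * L)] (χ : DirichletCharacter ℂ p) (B : ℝ) (hB : 0 ≤ B)
    (v : ZMod p) (hv : v ≠ 0) (T A : Finset (ZMod p))
    (hA : ∀ a ∈ A, ∃ t ∈ T, ∃ i : ℕ, i < L ∧ a = t + (i : ZMod p) * v) :
    ‖∑ a ∈ A, ∑ b ∈ A, χ (a - b)‖
      ≤ B * T.card * A.card + L * (Bad L χ B).card * A.card := by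
  classical
  have hA' : ∀ a : ZMod p, ∃ t : ZMod p, ∃ i : ℕ, a ∈ A → t ∈ T ∧ i < L ∧ a = t + (i : ZMod p) * v := by
    intro a
    by_cases ha : a ∈ A
    · obtain ⟨t, ht, i, hi, e⟩ := hA a ha
      exact ⟨t, i, fun _ => ⟨ht, hi, e⟩⟩
    · exact ⟨0, 0, fun h => absurd h ha⟩
  choose τ ι hτι using hA'
  set Fb : ZMod p → Finset (ZMod p) := fun t => A.filter (fun a => τ a = t) with hFb
  have hsplit : ∀ g : ZMod p → ℂ, ∑ a ∈ A, g a = ∑ t ∈ T, ∑ a ∈ Fb t, g a := by
    intro g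
    exact (Finset.sum_fiberwise_of_maps_to (fun a ha => (hτι a ha).1) g).symm
  have hcard : ∑ t ∈ T, (Fb t).card = A.card :=
    (Finset.card_eq_sum_card_fiberwise (fun a ha => (hτι a ha).1)).symm
  have hcardR : ∑ t ∈ T, ((Fb t).card : ℝ) = A.card := by
    rw [← Nat.cast_sum, hcard]
  -- the index sets
  set I : ZMod p → Finset ℤ := fun t => (Fb t).image (fun a => (ι a : ℤ)) with hI
  have hinj : ∀ t, Set.InjOn (fun a => (ι a : ℤ)) (Fb t : Set (ZMod p)) := by
    intro t a ha b hb hab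
    simp only [hFb, Finset.coe_filter, Set.mem_ofPred_eq] at ha hb
    have h1 := (hτι a ha.1).2.2
    have h2 := (hτι b hb.1).2.2
    simp only [Nat.cast_inj] at hab
    rw [h1, h2, ha.2, hb.2, hab]
  have hIsub : ∀ t, I t ⊆ Finset.Ico 0 (L : ℤ) := by
    intro t z hz
    rw [hI, Finset.mem_image] at hz
    obtain ⟨a, ha, rfl⟩ := hz
    have h1 := (hτι a (Finset.mem_filter.1 ha).1).2.1
    rw [Finset.mem_Ico]
    constructor <;> omega
  have hIcard : ∀ t, (I t).card = (Fb t).card := fun t => Finset.card_image_of_injOn (hinj t)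
  have hIL : ∀ t, (Fb t).card ≤ L := by
    intro t
    rw [← hIcard]
    refine (Finset.card_le_card (hIsub t)).trans ?_
    rw [Int.card_Ico]
    omega
  have hS : ∑ a ∈ A, ∑ b ∈ A, χ (a - b) = ∑ t ∈ T, ∑ t' ∈ T, χ v *
      ∑ i ∈ I t, ∑ j ∈ I t', χ ((t - t') * v⁻¹ + ((i - j : ℤ) : ZMod p)) := by
    rw [hsplit]
    refine Finset.sum_congr rfl fun t _ => ?_
    have h1 : ∀ a ∈ Fb t, ∑ b ∈ A, χ (a - b) = ∑ t' ∈ T, ∑ b ∈ Fb t', χ (a - b) :=
      fun a _ => hsplit _
    rw [Finset.sum_congr rfl h1, Finset.sum_comm]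
    refine Finset.sum_congr rfl fun t' _ => ?_
    rw [hI, Finset.sum_image (fun a ha b hb hab => hinj t ha hb hab), Finset.mul_sum]
    refine Finset.sum_congr rfl fun a ha => ?_
    rw [Finset.sum_image (fun a ha b hb hab => hinj t' ha hb hab), Finset.mul_sum]
    refine Finset.sum_congr rfl fun b hb => ?_
    rw [← map_mul]
    congr 1
    have ha' := Finset.mem_filter.1 ha
    have hb' := Finset.mem_filter.1 hb
    have e1 := (hτι a ha'.1).2.2
    have e2 := (hτι b hb'.1).2.2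
    rw [ha'.2] at e1
    rw [hb'.2] at e2
    rw [e1, e2]
    push_cast
    have e1' : ((ι (t + (ι a : ZMod p) * v) : ℕ) : ZMod p) = (ι a : ZMod p) := by rw [← e1]
    have e2' : ((ι (t' + (ι b : ZMod p) * v) : ℕ) : ZMod p) = (ι b : ZMod p) := by rw [← e2]
    rw [e1', e2']
    field_simp
    ring
  rw [hS]
  have hterm : ∀ t t', ‖χ v * ∑ i ∈ I t, ∑ j ∈ I t', χ ((t - t') * v⁻¹ + ((i - j : ℤ) : ZMod p))‖
      ≤ B * ((((Fb t).card : ℝ) + (Fb t').card) / 2)
        + (if (t - t') * v⁻¹ ∈ Bad L χ B then (L : ℝ) * (Fb t).card else 0) := by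
    intro t t'
    rw [norm_mul]
    have hχv : ‖χ v‖ ≤ 1 := DirichletCharacter.norm_le_one χ v
    have h0 : ‖χ v‖ * ‖∑ i ∈ I t, ∑ j ∈ I t', χ ((t - t') * v⁻¹ + ((i - j : ℤ) : ZMod p))‖
        ≤ ‖∑ i ∈ I t, ∑ j ∈ I t', χ ((t - t') * v⁻¹ + ((i - j : ℤ) : ZMod p))‖ :=
      mul_le_of_le_one_left (norm_nonneg _) hχv
    refine h0.trans ?_
    split_ifs with hb
    · have h1 : ‖∑ i ∈ I t, ∑ j ∈ I t', χ ((t - t') * v⁻¹ + ((i - j : ℤ) : ZMod p))‖
          ≤ (L : ℝ) * (Fb t).card := by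
        refine (norm_sum_le _ _).trans ?_
        have h2 : ∀ i ∈ I t, ‖∑ j ∈ I t', χ ((t - t') * v⁻¹ + ((i - j : ℤ) : ZMod p))‖ ≤ (L : ℝ) := by
          intro i _
          refine (norm_sum_le _ _).trans ?_
          refine (Finset.sum_le_sum fun j _ => DirichletCharacter.norm_le_one χ _).trans ?_
          rw [Finset.sum_const, nsmul_eq_mul, mul_one, hIcard]
          exact_mod_cast hIL t'
        refine (Finset.sum_le_sum h2).trans ?_
        rw [Finset.sum_const, nsmul_eq_mul, hIcard, mul_comm]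
      have h3 : 0 ≤ B * ((((Fb t).card : ℝ) + (Fb t').card) / 2) := by positivity
      linarith
    · rw [add_zero]
      have hgood : ∀ σ : ZMod (2 * L), ‖tw L χ ((t - t') * v⁻¹) σ‖ ≤ B := by
        intro σ
        by_contra hcon
        exact hb (mem_Bad.2 ⟨σ, not_le.1 hcon⟩)
      have h1 := toeplitz L (fun h : ℤ => χ ((t - t') * v⁻¹ + (h : ZMod p))) B hB hgood
        (I t) (I t') (hIsub t) (hIsub t')
      rw [hIcard, hIcard] at h1
      exact h1
  have hcount : ∀ t, ((T.filter (fun t' => (t - t') * v⁻¹ ∈ Bad L χ B)).card : ℝ)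
      ≤ (Bad L χ B).card := by
    intro t
    have h1 : (T.filter (fun t' => (t - t') * v⁻¹ ∈ Bad L χ B)).card ≤ (Bad L χ B).card := by
      apply Finset.card_le_card_of_injOn (fun t' => (t - t') * v⁻¹)
      · intro t' ht'
        exact (Finset.mem_filter.1 ht').2
      · intro x _ y _ hxy
        have hvi : v⁻¹ ≠ 0 := inv_ne_zero hv
        have h2 := mul_right_cancel₀ hvi hxy
        exact sub_right_injective h2
    exact_mod_cast h1
  calc ‖∑ t ∈ T, ∑ t' ∈ T, χ v *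
      ∑ i ∈ I t, ∑ j ∈ I t', χ ((t - t') * v⁻¹ + ((i - j : ℤ) : ZMod p))‖
      ≤ ∑ t ∈ T, ∑ t' ∈ T, (B * ((((Fb t).card : ℝ) + (Fb t').card) / 2)
        + (if (t - t') * v⁻¹ ∈ Bad L χ B then (L : ℝ) * (Fb t).card else 0)) := by
        refine (norm_sum_le _ _).trans (Finset.sum_le_sum fun t _ => ?_)
        exact (norm_sum_le _ _).trans (Finset.sum_le_sum fun t' _ => hterm t t')
    _ = ∑ t ∈ T, ∑ t' ∈ T, B * ((((Fb t).card : ℝ) + (Fb t').card) / 2)
        + ∑ t ∈ T, ∑ t' ∈ T,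
          (if (t - t') * v⁻¹ ∈ Bad L χ B then (L : ℝ) * (Fb t).card else 0) := by
        rw [← Finset.sum_add_distrib]
        refine Finset.sum_congr rfl fun t _ => ?_
        rw [← Finset.sum_add_distrib]
    _ ≤ _ := by
        refine add_le_add ?_ ?_
        · apply le_of_eq
          have h1 : ∀ t ∈ T, ∑ t' ∈ T, B * ((((Fb t).card : ℝ) + (Fb t').card) / 2)
              = B / 2 * (T.card * (Fb t).card + A.card) := by
            intro t _
            rw [← Finset.mul_sum, ← Finset.sum_div, Finset.sum_add_distrib, hcardR, Finset.sum_const,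
              nsmul_eq_mul]
            ring
          rw [Finset.sum_congr rfl h1, ← Finset.mul_sum, Finset.sum_add_distrib, ← Finset.mul_sum,
            hcardR, Finset.sum_const, nsmul_eq_mul]
          ring
        · have h1 : ∀ t ∈ T, ∑ t' ∈ T,
              (if (t - t') * v⁻¹ ∈ Bad L χ B then (L : ℝ) * (Fb t).card else 0)
              ≤ (L : ℝ) * (Bad L χ B).card * (Fb t).card := by
            intro t _
            rw [← Finset.sum_filter, Finset.sum_const, nsmul_eq_mul]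
            have h2 := hcount t
            have h3 : (0 : ℝ) ≤ (L : ℝ) * (Fb t).card := by positivity
            calc _ ≤ ((Bad L χ B).card : ℝ) * ((L : ℝ) * (Fb t).card) :=
                  mul_le_mul_of_nonneg_right h2 h3
              _ = _ := by ring
          refine (Finset.sum_le_sum h1).trans ?_
          rw [← Finset.mul_sum, hcardR]

end Pool.Agent.W27.SD
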