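import Mathlib
import Pool.Agent.H735CB.Moment

/-! Weighted moments over all Dirichlet characters modulo a prime and all shifts. -/

set_option autoImplicit false

open Finset

namespace Pool.Agent.W27.SD

variable {p : ℕ} [Fact p.Prime]

/-- the weighted moment over the characters is at most `p` times a number of solutions -/
theorem moment_w {J : Type*} [DecidableEq J] (s : Finset J) (D : J → ZMod p) (c : J → ℂ)
    (hc : ∀ j, ‖c j‖ ≤ 1) (k : ℕ) :
    ∑ χ : DirichletCharacter ℂ p, ‖∑ j ∈ s, c j * χ (D j)‖ ^ (2 * k)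
      ≤ (p : ℝ) * (((Fintype.piFinset (fun _ : Fin k => s)) ×ˢ
          (Fintype.piFinset (fun _ : Fin k => s))).filter
          (fun q => ∏ i, D (q.1 i) = ∏ i, D (q.2 i) ∧ ∏ i, D (q.1 i) ≠ 0)).card := by
  classical
  set Pi := Fintype.piFinset (fun _ : Fin k => s) with hPi
  have hpow : ∀ χ : DirichletCharacter ℂ p, (∑ j ∈ s, c j * χ (D j)) ^ k
      = ∑ x ∈ Pi, (∏ i, c (x i)) * χ (∏ i, D (x i)) := by
    intro χ
    rw [Finset.sum_pow']
    refine Finset.sum_congr rfl (fun x _ => ?_)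
    rw [Finset.prod_mul_distrib, map_prod]
  have h1 : ∀ χ : DirichletCharacter ℂ p, ((‖∑ j ∈ s, c j * χ (D j)‖ ^ (2 * k) : ℝ) : ℂ)
      = ∑ q ∈ Pi ×ˢ Pi, ((∏ i, c (q.1 i)) * (starRingEnd ℂ) (∏ i, c (q.2 i))) *
        (χ (∏ i, D (q.1 i)) * (starRingEnd ℂ) (χ (∏ i, D (q.2 i)))) := by
    intro χ
    have h2 : ((‖∑ j ∈ s, c j * χ (D j)‖ ^ (2 * k) : ℝ) : ℂ)
        = (∑ j ∈ s, c j * χ (D j)) ^ k * (starRingEnd ℂ) ((∑ j ∈ s, c j * χ (D j)) ^ k) := by
      rw [Complex.mul_conj, Complex.normSq_eq_norm_sq, norm_pow]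
      norm_cast
      ring
    rw [h2, hpow, map_sum, Finset.sum_mul_sum, ← Finset.sum_product']
    refine Finset.sum_congr rfl (fun q _ => ?_)
    rw [map_mul]
    ring
  have h3 : ((∑ χ : DirichletCharacter ℂ p, ‖∑ j ∈ s, c j * χ (D j)‖ ^ (2 * k) : ℝ) : ℂ)
      = ∑ q ∈ Pi ×ˢ Pi, ((∏ i, c (q.1 i)) * (starRingEnd ℂ) (∏ i, c (q.2 i))) *
        (if ∏ i, D (q.1 i) = ∏ i, D (q.2 i) ∧ ∏ i, D (q.1 i) ≠ 0 then ((p : ℂ) - 1) else 0) := by
    rw [Complex.ofReal_sum, Finset.sum_congr rfl (fun χ _ => h1 χ), Finset.sum_comm]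
    refine Finset.sum_congr rfl (fun q _ => ?_)
    rw [← Finset.mul_sum, Pool.Agent.H735CB.sum_char]
  have hnn : (0 : ℝ) ≤ ∑ χ : DirichletCharacter ℂ p, ‖∑ j ∈ s, c j * χ (D j)‖ ^ (2 * k) :=
    Finset.sum_nonneg (fun _ _ => by positivity)
  have h4 : ∑ χ : DirichletCharacter ℂ p, ‖∑ j ∈ s, c j * χ (D j)‖ ^ (2 * k)
      = ‖((∑ χ : DirichletCharacter ℂ p, ‖∑ j ∈ s, c j * χ (D j)‖ ^ (2 * k) : ℝ) : ℂ)‖ := by
    rw [Complex.norm_real, Real.norm_of_nonneg hnn]
  have hp1 : (1 : ℝ) ≤ p := by exact_mod_cast (Fact.out : p.Prime).one_lt.le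
  rw [h4, h3]
  refine (norm_sum_le _ _).trans ?_
  have h5 : ∀ q ∈ Pi ×ˢ Pi, ‖((∏ i, c (q.1 i)) * (starRingEnd ℂ) (∏ i, c (q.2 i))) *
        (if ∏ i, D (q.1 i) = ∏ i, D (q.2 i) ∧ ∏ i, D (q.1 i) ≠ 0 then ((p : ℂ) - 1) else 0)‖
      ≤ if ∏ i, D (q.1 i) = ∏ i, D (q.2 i) ∧ ∏ i, D (q.1 i) ≠ 0 then (p : ℝ) else 0 := by
    intro q _
    have hcx : ∀ x : Fin k → J, ‖∏ i, c (x i)‖ ≤ 1 := by
      intro x
      rw [norm_prod]
      exact Finset.prod_le_one (fun _ _ => norm_nonneg _) (fun i _ => hc _)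
    rw [norm_mul, norm_mul, RCLike.norm_conj]
    have h6 : ‖∏ i, c (q.1 i)‖ * ‖∏ i, c (q.2 i)‖ ≤ 1 :=
      mul_le_one₀ (hcx _) (norm_nonneg _) (hcx _)
    split_ifs with h
    · have h7 : ‖((p : ℂ) - 1)‖ ≤ p := by
        have : ((p : ℂ) - 1) = (((p : ℝ) - 1 : ℝ) : ℂ) := by push_cast; ring
        rw [this, Complex.norm_real, Real.norm_of_nonneg (by linarith)]
        linarith
      calc _ ≤ 1 * (p : ℝ) := mul_le_mul h6 h7 (norm_nonneg _) zero_le_one
        _ = p := one_mul _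
    · simp
  refine (Finset.sum_le_sum h5).trans ?_
  rw [← Finset.sum_filter, Finset.sum_const, nsmul_eq_mul, mul_comm]

open Polynomial in
/-- shifts for which two products of shifted elements agree -/
theorem count_shift (k : ℕ) (x y : Fin k → ZMod p) :
    (univ.filter (fun t : ZMod p => ∏ i, (t + x i) = ∏ i, (t + y i) ∧ ∏ i, (t + x i) ≠ 0)).card ≤ k
    ∨ ∀ i, y i ∈ univ.image x := by
  classical
  let Q : (Fin k → ZMod p) → (ZMod p)[X] := fun z => ∏ i, (X + C (z i))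
  have hQdeg : ∀ z, (Q z).natDegree ≤ k := by
    intro z
    refine (Polynomial.natDegree_prod_le _ _).trans ?_
    simp [Polynomial.natDegree_X_add_C]
  have hQeval : ∀ z (t : ZMod p), (Q z).eval t = ∏ i, (t + z i) := by
    intro z t
    simp only [Q, Polynomial.eval_prod]
    refine Finset.prod_congr rfl (fun i _ => ?_)
    simp
  let G : (ZMod p)[X] := Q x - Q y
  by_cases hG : G = 0
  · right
    intro i
    have h1 : (Q x).eval (-(y i)) = 0 := by
      have h2 : Q x = Q y := sub_eq_zero.1 hG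
      rw [h2, hQeval]
      apply Finset.prod_eq_zero (mem_univ i)
      simp
    rw [hQeval, Finset.prod_eq_zero_iff] at h1
    obtain ⟨j, -, hj⟩ := h1
    rw [Finset.mem_image]
    exact ⟨j, mem_univ _, by linear_combination hj⟩
  · left
    have hsub : (univ.filter (fun t : ZMod p => ∏ i, (t + x i) = ∏ i, (t + y i) ∧
        ∏ i, (t + x i) ≠ 0)) ⊆ G.roots.toFinset := by
      intro t ht
      rw [Multiset.mem_toFinset, Polynomial.mem_roots hG]
      have h1 := (Finset.mem_filter.mp ht).2.1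
      simp only [G, Polynomial.IsRoot.def, Polynomial.eval_sub, hQeval]
      rw [h1, sub_self]
    refine (Finset.card_le_card hsub).trans ((Multiset.toFinset_card_le _).trans
      ((Polynomial.card_roots' _).trans ?_))
    exact (Polynomial.natDegree_sub_le _ _).trans (max_le (hQdeg _) (hQdeg _))

/-- weighted moment over all characters and all shifts -/
theorem moment_shift (s : Finset (ZMod p)) (c : ZMod p → ℂ) (hc : ∀ j, ‖c j‖ ≤ 1) (k : ℕ) :
    ∑ t : ZMod p, ∑ χ : DirichletCharacter ℂ p, ‖∑ j ∈ s, c j * χ (t + j)‖ ^ (2 * k)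
      ≤ (p : ℝ) * (k * (s.card : ℝ) ^ (2 * k) + p * ((s.card : ℝ) ^ k * (k : ℝ) ^ k)) := by
  classical
  refine (Finset.sum_le_sum (fun t _ => moment_w s (fun j => t + j) c hc k)).trans ?_
  rw [← Finset.mul_sum]
  refine mul_le_mul_of_nonneg_left ?_ (Nat.cast_nonneg _)
  set Pi := Fintype.piFinset (fun _ : Fin k => s) with hPi
  have hPic : Pi.card = s.card ^ k := by rw [hPi, Fintype.card_piFinset]; simp
  have hswap : ∑ t : ZMod p, (((Pi ×ˢ Pi).filter
      (fun q => ∏ i, (t + q.1 i) = ∏ i, (t + q.2 i) ∧ ∏ i, (t + q.1 i) ≠ 0)).card)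
      = ∑ q ∈ Pi ×ˢ Pi, (univ.filter (fun t : ZMod p => ∏ i, (t + q.1 i) = ∏ i, (t + q.2 i) ∧
        ∏ i, (t + q.1 i) ≠ 0)).card := by
    simp only [Finset.card_filter]
    rw [Finset.sum_comm]
  have hbound : ∑ q ∈ Pi ×ˢ Pi, (univ.filter (fun t : ZMod p => ∏ i, (t + q.1 i) = ∏ i, (t + q.2 i) ∧
        ∏ i, (t + q.1 i) ≠ 0)).card ≤ k * s.card ^ (2 * k) + p * (s.card ^ k * k ^ k) := by
    rw [Finset.sum_product]
    have hx : ∀ x ∈ Pi, ∑ y ∈ Pi, (univ.filter (fun t : ZMod p => ∏ i, (t + x i) = ∏ i, (t + y i) ∧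
        ∏ i, (t + x i) ≠ 0)).card ≤ k * s.card ^ k + p * k ^ k := by
      intro x _
      have hy : ∀ y ∈ Pi, (univ.filter (fun t : ZMod p => ∏ i, (t + x i) = ∏ i, (t + y i) ∧
        ∏ i, (t + x i) ≠ 0)).card ≤
          k + (if y ∈ Fintype.piFinset (fun _ : Fin k => univ.image x) then p else 0) := by
        intro y hy
        rcases count_shift k x y with h2 | h2
        · exact h2.trans (Nat.le_add_right _ _)
        · rw [if_pos (Fintype.mem_piFinset.mpr h2)]
          refine le_trans (Finset.card_le_univ _) ?_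
          rw [ZMod.card]
          exact Nat.le_add_left _ _
      refine (Finset.sum_le_sum hy).trans ?_
      rw [Finset.sum_add_distrib, Finset.sum_const, smul_eq_mul, hPic, mul_comm]
      refine Nat.add_le_add_left ?_ _
      rw [← Finset.sum_filter, Finset.sum_const, smul_eq_mul, mul_comm]
      refine Nat.mul_le_mul_left _ ?_
      calc (Pi.filter (fun y => y ∈ Fintype.piFinset (fun _ : Fin k => univ.image x))).card
          ≤ (Fintype.piFinset (fun _ : Fin k => univ.image x)).card := by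
            refine Finset.card_le_card (fun y hy => (Finset.mem_filter.mp hy).2)
        _ = (univ.image x).card ^ k := by rw [Fintype.card_piFinset]; simp
        _ ≤ k ^ k := Nat.pow_le_pow_left (by
            simpa using Finset.card_image_le (s := (univ : Finset (Fin k))) (f := x)) k
    refine (Finset.sum_le_sum hx).trans ?_
    rw [Finset.sum_const, smul_eq_mul, hPic]
    apply le_of_eq
    ring
  rw [← Nat.cast_sum, hswap]
  exact_mod_cast hbound

end Pool.Agent.W27.SD
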